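import Pool.Agent.Helper80.KC.Goals

/-!
# Project KC (MP_eaa1a7_co), packet ENDA (helper96): no one-dimensional intersections
-/

set_option autoImplicit false

open Module

namespace Pool.Agent.Helper96.KC

open Pool.Agent.Helper80.KC

/-- **ENDA**. -/
theorem goalENDA (hF : G_FOLD) (hL : G_LEM) : G_ENDA := by
  intro k V _ _ _ N p f hC hdim
  have hN := hC.dim
  have h2 : ∀ x ∈ (Set.univ : Set (Fin k)), ∀ y ∈ (Set.univ : Set (Fin k)),
      2 ≤ finrank ℝ (N x ⊓ N y : Submodule ℝ V) := by
    intro x _ y _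
    by_cases hxy : x = y
    · subst hxy
      rw [inf_idem, hN]
      norm_num
    · exact hdim x y hxy
  rcases hL k V N Set.univ hN h2 with ⟨Y, hY, hNY⟩ | ⟨D, hD, hDN⟩
  · exact hF k V N p f Y (fun _ => Y) hC (fun _ => le_rfl) (fun i => hNY i (Set.mem_univ i))
      (fun _ => hY.trans (by norm_num)) (fun i j _ => Or.inl rfl)
  · refine hF k V N p f D N hC (fun i => hDN i (Set.mem_univ i)) (fun _ => le_rfl)
      (fun i => by rw [hN]; norm_num) ?_
    intro i j hij
    by_cases h : N i = N j
    · exact Or.inl h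
    · right
      have hle : D ≤ N i ⊓ N j := le_inf (hDN i (Set.mem_univ i)) (hDN j (Set.mem_univ j))
      have hne : N i ⊓ N j ≠ N i := by
        intro heq
        apply h
        have h3 : N i ≤ N j := inf_eq_left.1 heq
        exact Submodule.eq_of_le_of_finrank_eq h3 (by rw [hN, hN])
      have hlt : finrank ℝ (N i ⊓ N j : Submodule ℝ V) < finrank ℝ (N i) :=
        Submodule.finrank_lt_finrank_of_lt (lt_of_le_of_ne inf_le_left hne)
      rw [hN] at hlt
      have h4 : D = N i ⊓ N j := Submodule.eq_of_le_of_finrank_le hle (by omega)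
      rw [h4]
      exact ⟨hC.fl i j hij, hC.fr i j hij⟩

end Pool.Agent.Helper96.KC
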